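import Pool.Agent.X68.CP.Spider

/-!
# A CPET tree whose only vertex of degree 4 is adjacent to exactly one leaf

The tree is the spider `S(1, 2, 12, 16)`: a centre with four legs, which have 1, 2, 12 and 16
vertices.  Its only vertex of degree 4 is the centre, and the centre has exactly one leaf neighbour.

The 8349 partitions of 32 are covered by a decision tree with 145 leaves.  A leaf is a list of largest
parts together with a placement of these parts (one of them contains the centre) from which every
completion is found by placing the remaining parts greedily at the ends of the legs.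
-/

set_option autoImplicit false

namespace Pool.Agent.Results.MP_6c5f5a_co.OneLeaf

/-- `T` has a connected partition of type `lam`: a partition of the vertex set into blocks inducing
connected subgraphs, the multiset of block sizes being `lam`. -/
def HasConnectedPartition {n : ℕ} (T : SimpleGraph (Fin n)) (lam : n.Partition) : Prop :=
  ∃ P : Finpartition (Finset.univ : Finset (Fin n)),
    (∀ B ∈ P.parts, (T.induce (B : Set (Fin n))).Connected) ∧
      P.parts.val.map Finset.card = lam.parts

/-- the degree of `v` in `T` -/
noncomputable def deg {n : ℕ} (T : SimpleGraph (Fin n)) (v : Fin n) : ℕ := (T.neighborSet v).ncard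

/-- `T` is a CPET tree: a tree with `Δ(T) = 4` that has a connected partition of every type. -/
def IsCPET {n : ℕ} (T : SimpleGraph (Fin n)) : Prop :=
  T.IsTree ∧ ((∀ v, deg T v ≤ 4) ∧ ∃ v, deg T v = 4) ∧
    ∀ lam : n.Partition, HasConnectedPartition T lam

open Pool.Agent.X68.CP.Spider in
theorem deg_eq (v : Fin 32) : deg T v = T.degree v := by
  unfold deg
  rw [← Nat.card_coe_set_eq, Nat.card_eq_fintype_card, SimpleGraph.card_neighborSet_eq_degree]

set_option maxRecDepth 1000000 in
open Pool.Agent.X68.CP.Spider in
theorem leaves : ∀ v, T.degree v = 4 →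
    (Finset.univ.filter (fun w => T.Adj v w ∧ T.degree w = 1)).card ≤ 1 := by
  decide +kernel

/-- There is a CPET tree in which every vertex of degree 4 is adjacent to at most one leaf. -/
theorem result : ∃ (n : ℕ) (T : SimpleGraph (Fin n)), IsCPET T ∧
    ∀ v, deg T v = 4 → {w | T.Adj v w ∧ deg T w = 1}.ncard ≤ 1 := by
  refine ⟨32, Pool.Agent.X68.CP.Spider.T, ⟨Pool.Agent.X68.CP.Spider.isTree,
    ⟨?_, 0, ?_⟩, ?_⟩, ?_⟩
  · intro v
    rw [deg_eq]
    exact Pool.Agent.X68.CP.Spider.degrees v
  · rw [deg_eq]
    exact Pool.Agent.X68.CP.Spider.degree0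
  · intro lam
    exact Pool.Agent.X68.CP.Spider.all_types lam.parts (fun a ha => lam.parts_pos ha) lam.parts_sum
  · intro v hv
    rw [deg_eq] at hv
    have h := leaves v hv
    have e : {w | Pool.Agent.X68.CP.Spider.T.Adj v w ∧ deg Pool.Agent.X68.CP.Spider.T w = 1} =
        ((Finset.univ.filter (fun w => Pool.Agent.X68.CP.Spider.T.Adj v w ∧
          Pool.Agent.X68.CP.Spider.T.degree w = 1) : Finset (Fin 32)) : Set (Fin 32)) := by
      ext w
      simp [deg_eq]
    rw [e, Set.ncard_coe_finset]
    exact h

end Pool.Agent.Results.MP_6c5f5a_co.OneLeaf
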